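import Pool.Agent.R292.ND.MAIN
import Pool.Agent.R292.ND.NT
import Pool.Agent.R292.ND.PART
import Pool.Agent.R292.ND.HH
import Pool.Agent.R292.ND.TRI
import Pool.Agent.R292.ND.STAR
import Pool.Agent.R292.ND.ORTH
import Pool.Agent.R292.ND.SUP
import Pool.Agent.R292.ND.BAD
import Pool.Agent.R292.ND.KB
import Pool.Agent.R292.ND.COMB
import Pool.Agent.R292.ND.CROSS
import Pool.Agent.R292.ND.COMP
import Pool.Agent.R292.ND.EXPL
import Pool.Agent.R292.ND.SWAP

/-!
# Nodal domains of the Neumann eigenfunctions of the square (MP_65f45c_an, Q1, positive answer)

`Om` is the open square `(0, π)²`, `IsEig lam u` says that `u` is a nonzero element of the real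
span of the functions `cos (p x) cos (q y)` with `p ^ 2 + q ^ 2 = lam`, `nodalSet u` is the closure
of the zero set of `u` in the square, and `nodalCount u` is the number (in `ℕ∞`) of connected
components of the square minus the nodal set.

If `u n` are Neumann eigenfunctions for eigenvalues `lam n → ∞` then the number of nodal domains of
`u n` tends to infinity; moreover the growth is uniform: for every `C` only finitely many
eigenvalues have an eigenfunction with fewer than `C` nodal domains.

Idea of the proof.  If an eigenfunction has few nodal domains, then its restrictions `f`, `g` to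
two adjacent sides of the square have few sign changes (crossing lemma in the plane).  These
restrictions are cosine polynomials with very few frequencies (lattice points on a circle), whose
frequencies are, except the smallest one `k`, of order at least `lam ^ (1/4)`; a sign cut-off
argument bounds the `L¹` norm of `f` by the coefficient of `cos (k x)`, and (for `k ≥ 1`) the
coefficient of the highest frequency is strictly smaller than the coefficient of the lowest one;
but these two coefficients are exchanged between `f` and `g`: contradiction.  For `k = 0` a discrete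
argument on the grids `(2 j + σ) π / N` shows that `u` is a multiple of `cos (N x) ± cos (N y)`,
which has at least `N` nodal domains.
-/

open Filter Topology Pool.Agent.R292.ND

namespace Pool.Agent.Results.MP_65f45c_an.NodalCount

theorem main : S_MAIN := by
  have hO : S_ORTH := t_ORTH
  have hSup : S_SUP := t_SUP hO
  have hN : S_NT := t_NT
  have hP : S_PART := t_PART
  have hH : S_H := t_H
  have hStar : S_STAR := t_STAR hN hP hH
  have hTwo : S_TWO := t_TWO hN hP hH
  have hBad : S_BAD := t_BAD hN hP t_TRI hStar
  exact t_MAIN (t_CORE hStar hTwo (t_KB hBad hSup) (t_KC hBad hSup))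
    (t_COMP t_COMB t_CROSS) t_SWAP t_EXPL

/-- The number of nodal domains of Neumann eigenfunctions of the square tends to infinity with the
eigenvalue, uniformly over all eigenfunctions. -/
theorem result :
    (∀ (lam : ℕ → ℕ) (u : ℕ → ℝ × ℝ → ℝ), Tendsto lam atTop atTop →
      (∀ n, IsEig (lam n) (u n)) → Tendsto (fun n => nodalCount (u n)) atTop (𝓝 ⊤)) ∧
    (∀ C : ℕ, ∃ L : ℕ, ∀ lam : ℕ, L ≤ lam → ∀ u : ℝ × ℝ → ℝ, IsEig lam u →
      (C : ℕ∞) ≤ nodalCount u) := by
  refine ⟨?_, main⟩
  intro lam u hlam hu
  rw [ENat.tendsto_nhds_top_iff_natCast_lt]
  intro C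
  obtain ⟨L, hL⟩ := main (C + 1)
  filter_upwards [hlam.eventually_ge_atTop L] with n hn
  have h1 := hL (lam n) hn (u n) (hu n)
  refine lt_of_lt_of_le ?_ h1
  exact_mod_cast Nat.lt_succ_self C

end Pool.Agent.Results.MP_65f45c_an.NodalCount
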